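import Mathlib

/-!
# MP_2aa58c: return times do not determine a minimal homogeneous system

A negative answer to Q1 and Q2.  `G = ℤ ⋉ 𝕋²` is the group of the maps
`(x,y) ↦ (x + a, y + n x + b)` of the torus, a nilpotent Lie group, `Γ₂ ≅ ℤ` is the stabiliser of
the origin and `Γ₁ ≅ 2ℤ` its subgroup of index two.
-/

namespace Pool.Agent.Results.MP_2aa58c_an.SameCore

open Set Filter Topology
open scoped Manifold ContDiff

/-! ## The notions of the problem -/

/-- The set `U` has asymmetric closure: only the elements acting trivially on `G/Γ` preserve the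
closure of `U`. -/
def AsymClosure {G : Type} [Group G] [TopologicalSpace G] {Γ : Subgroup G} (U : Set (G ⧸ Γ)) :
    Prop :=
  ∀ g : G, (fun x : G ⧸ Γ => g • x) '' closure U = closure U → ∀ x : G ⧸ Γ, g • x = x

/-- The standing hypotheses for one index: `Γ` is discrete and cocompact (and `G/Γ` is
metrizable), the translation by `τ` is minimal, `U` is open with asymmetric closure. -/
def Hyp {G : Type} [Group G] [TopologicalSpace G] (Γ : Subgroup G) (τ : G) (U : Set (G ⧸ Γ)) :
    Prop :=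
  DiscreteTopology Γ ∧ CompactSpace (G ⧸ Γ) ∧ TopologicalSpace.MetrizableSpace (G ⧸ Γ) ∧
    (∀ x : G ⧸ Γ, Dense (range fun n : ℤ => τ ^ n • x)) ∧ IsOpen U ∧ AsymClosure U

/-- `G` carries the structure of a real (finite-dimensional, boundaryless, smooth) Lie group. -/
def IsLie (G : Type) [Group G] [TopologicalSpace G] : Prop :=
  ∃ (E : Type) (_ : NormedAddCommGroup E) (_ : NormedSpace ℝ E) (_ : FiniteDimensional ℝ E)
    (H : Type) (_ : TopologicalSpace H) (I : ModelWithCorners ℝ E H) (_ : ChartedSpace H G),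
    I.Boundaryless ∧ LieGroup I ∞ G

/-! ## The group -/

noncomputable section

/-- The group `ℤ ⋉ 𝕋²`. -/
def G : Type := ℤ × Circle × Circle

instance : TopologicalSpace G := inferInstanceAs (TopologicalSpace (ℤ × Circle × Circle))

instance : PolishSpace G := inferInstanceAs (PolishSpace (ℤ × Circle × Circle))

/-- The element `(x,y) ↦ (x + a, y + n x + b)`. -/
def mk (n : ℤ) (a b : Circle) : G := (n, a, b)

instance : Mul G := ⟨fun p q => mk (p.1 + q.1) (p.2.1 * q.2.1) (p.2.2 * q.2.2 * q.2.1 ^ p.1)⟩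
instance : One G := ⟨mk 0 1 1⟩
instance : Inv G := ⟨fun p => mk (-p.1) (p.2.1⁻¹) (p.2.2⁻¹ * p.2.1 ^ p.1)⟩

lemma mk_mul_mk (n m : ℤ) (a b c d : Circle) :
    mk n a b * mk m c d = mk (n + m) (a * c) (b * d * c ^ n) := rfl
lemma one_def : (1 : G) = mk 0 1 1 := rfl
lemma mk_inv (n : ℤ) (a b : Circle) : (mk n a b)⁻¹ = mk (-n) a⁻¹ (b⁻¹ * a ^ n) := rfl

lemma mk_inj {n m : ℤ} {a b c d : Circle} : mk n a b = mk m c d ↔ n = m ∧ a = c ∧ b = d := by
  unfold mk
  exact Iff.trans Prod.mk_inj (and_congr Iff.rfl Prod.mk_inj)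

lemma exists_mk (g : G) : ∃ n a b, g = mk n a b := ⟨g.1, g.2.1, g.2.2, rfl⟩

instance : Group G :=
  Group.ofLeftAxioms
    (by
      intro x y z
      obtain ⟨n, a, b, rfl⟩ := exists_mk x
      obtain ⟨n', a', b', rfl⟩ := exists_mk y
      obtain ⟨n'', a'', b'', rfl⟩ := exists_mk z
      simp only [mk_mul_mk, mk_inj]
      refine ⟨add_assoc _ _ _, mul_assoc _ _ _, ?_⟩
      rw [mul_zpow, zpow_add]
      simp only [mul_assoc, mul_comm, mul_left_comm])
    (by
      intro x
      obtain ⟨n, a, b, rfl⟩ := exists_mk x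
      simp [mk_mul_mk, one_def])
    (by
      intro x
      obtain ⟨n, a, b, rfl⟩ := exists_mk x
      simp only [mk_mul_mk, mk_inj, one_def, mk_inv]
      refine ⟨by ring, by simp, ?_⟩
      rw [zpow_neg, mul_assoc b⁻¹, mul_comm (a ^ n) b]
      simp)

lemma continuous_zpow_joint : Continuous fun q : ℤ × Circle => q.2 ^ q.1 :=
  continuous_prod_of_discrete_left.2 fun n => continuous_zpow n

instance : IsTopologicalGroup G where
  continuous_mul := by
    have h1 : Continuous fun q : G × G => q.1.1 + q.2.1 :=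
      (continuous_fst.comp continuous_fst).add (continuous_fst.comp continuous_snd)
    have h2 : Continuous fun q : G × G => q.1.2.1 * q.2.2.1 :=
      ((continuous_fst.comp continuous_snd).comp continuous_fst).mul
        ((continuous_fst.comp continuous_snd).comp continuous_snd)
    have h3 : Continuous fun q : G × G => q.1.2.2 * q.2.2.2 * q.2.2.1 ^ q.1.1 := by
      refine Continuous.mul (((continuous_snd.comp continuous_snd).comp continuous_fst).mul
        ((continuous_snd.comp continuous_snd).comp continuous_snd)) ?_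
      exact continuous_zpow_joint.comp
        ((continuous_fst.comp continuous_fst).prodMk
          ((continuous_fst.comp continuous_snd).comp continuous_snd))
    exact h1.prodMk (h2.prodMk h3)
  continuous_inv := by
    have h1 : Continuous fun q : G => -q.1 := continuous_fst.neg
    have h2 : Continuous fun q : G => q.2.1⁻¹ := (continuous_fst.comp continuous_snd).inv
    have h3 : Continuous fun q : G => q.2.2⁻¹ * q.2.1 ^ q.1 :=
      (continuous_snd.comp continuous_snd).inv.mul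
        (continuous_zpow_joint.comp (continuous_fst.prodMk (continuous_fst.comp continuous_snd)))
    exact h1.prodMk (h2.prodMk h3)

/-! ### Nilpotency -/

lemma central (c : Circle) (p : G) : mk 0 1 c * p = p * mk 0 1 c := by
  obtain ⟨n, a, b, rfl⟩ := exists_mk p
  simp [mk_mul_mk, mul_comm]

/-- The projection to the first two coordinates. -/
def proj : G →* Multiplicative ℤ × Circle where
  toFun g := (Multiplicative.ofAdd g.1, g.2.1)
  map_one' := rfl
  map_mul' _ _ := rfl

instance : Group.IsNilpotent G := by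
  refine Subgroup.isNilpotent_of_ker_le_center proj ?_
  intro p hp
  obtain ⟨n, a, b, rfl⟩ := exists_mk p
  have h1 : (Multiplicative.ofAdd n, a) = (1 : Multiplicative ℤ × Circle) := hp
  have h2 : n = 0 := congrArg (fun q : Multiplicative ℤ × Circle => Multiplicative.toAdd q.1) h1
  have h3 : a = 1 := congrArg Prod.snd h1
  subst h2 h3
  rw [Subgroup.mem_center_iff]
  intro g
  exact (central b g).symm

/-! ### The Lie group structure -/

open scoped Manifold ContDiff

abbrev E0 := EuclideanSpace ℝ (Fin 0)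
abbrev E1 := EuclideanSpace ℝ (Fin 1)

instance : ChartedSpace E0 ℤ := ChartedSpace.ofDiscreteTopology

instance : ChartedSpace (ModelProd E0 (ModelProd E1 E1)) G :=
  inferInstanceAs (ChartedSpace (ModelProd E0 (ModelProd E1 E1)) (ℤ × Circle × Circle))

abbrev I0 := 𝓘(ℝ, E0)

lemma smooth_zpow_joint : ContMDiff (I0.prod (𝓡 1)) (𝓡 1) ∞ fun q : ℤ × Circle => q.2 ^ q.1 := by
  intro q
  have h1 : ContMDiffAt (I0.prod (𝓡 1)) (𝓡 1) ∞ (fun r : ℤ × Circle => r.2 ^ q.1) q := by
    have h2 : ContMDiff (I0.prod (𝓡 1)) (𝓡 1) ∞ (fun r : ℤ × Circle => r.2) := contMDiff_snd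
    rcases q.1.eq_nat_or_neg with ⟨m, hm | hm⟩
    · rw [hm]
      simp only [zpow_natCast]
      exact (h2.pow m).contMDiffAt
    · rw [hm]
      simp only [zpow_neg, zpow_natCast]
      exact (h2.pow m).inv.contMDiffAt
  refine h1.congr_of_eventuallyEq ?_
  have : ∀ᶠ r : ℤ × Circle in 𝓝 q, r.1 = q.1 := by
    have h2 : ∀ᶠ n : ℤ in 𝓝 q.1, n = q.1 := by
      rw [nhds_discrete]
      rfl
    exact continuous_fst.continuousAt.eventually h2
  filter_upwards [this] with r hr
  rw [hr]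

abbrev II := I0.prod ((𝓡 1).prod (𝓡 1))

instance : IsManifold I0 ∞ ℤ := IsManifold.of_discreteTopology _

instance : IsManifold II ∞ G := inferInstanceAs (IsManifold II ∞ (ℤ × Circle × Circle))

lemma smooth_n : ContMDiff II I0 ∞ (fun g : G => g.1) := contMDiff_fst
lemma smooth_a : ContMDiff II (𝓡 1) ∞ (fun g : G => g.2.1) :=
  (contMDiff_fst (I := 𝓡 1) (J := 𝓡 1)).comp (contMDiff_snd (I := I0))
lemma smooth_b : ContMDiff II (𝓡 1) ∞ (fun g : G => g.2.2) :=
  (contMDiff_snd (I := 𝓡 1) (J := 𝓡 1)).comp (contMDiff_snd (I := I0))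

instance : ContMDiffMul II ∞ G where
  contMDiff_mul := by
    have hf : ContMDiff (II.prod II) II ∞ (fun p : G × G => p.1) := contMDiff_fst
    have hs : ContMDiff (II.prod II) II ∞ (fun p : G × G => p.2) := contMDiff_snd
    have h1 : ContMDiff (II.prod II) I0 ∞ (fun p : G × G => p.1.1 + p.2.1) := by
      have h : ContMDiff (I0.prod I0) I0 ∞ (fun q : ℤ × ℤ => q.1 + q.2) :=
        contMDiff_of_discreteTopology
      exact h.comp ((smooth_n.comp hf).prodMk (smooth_n.comp hs))
    have h2 : ContMDiff (II.prod II) (𝓡 1) ∞ (fun p : G × G => p.1.2.1 * p.2.2.1) :=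
      (smooth_a.comp hf).mul (smooth_a.comp hs)
    have h3 : ContMDiff (II.prod II) (𝓡 1) ∞
        (fun p : G × G => p.1.2.2 * p.2.2.2 * p.2.2.1 ^ p.1.1) :=
      ((smooth_b.comp hf).mul (smooth_b.comp hs)).mul
        (smooth_zpow_joint.comp ((smooth_n.comp hf).prodMk (smooth_a.comp hs)))
    exact h1.prodMk (h2.prodMk h3)

instance : LieGroup II ∞ G where
  contMDiff_inv := by
    have h1 : ContMDiff II I0 ∞ (fun p : G => -p.1) := by
      have h : ContMDiff I0 I0 ∞ (fun q : ℤ => -q) := contMDiff_of_discreteTopology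
      exact h.comp smooth_n
    have h2 : ContMDiff II (𝓡 1) ∞ (fun p : G => p.2.1⁻¹) := smooth_a.inv
    have h3 : ContMDiff II (𝓡 1) ∞ (fun p : G => p.2.2⁻¹ * p.2.1 ^ p.1) :=
      smooth_b.inv.mul (smooth_zpow_joint.comp (smooth_n.prodMk smooth_a))
    exact h1.prodMk (h2.prodMk h3)

lemma isLie : IsLie G :=
  ⟨_, inferInstance, inferInstance, inferInstance, _, inferInstance, II, inferInstance,
    inferInstance, inferInstance⟩

/-! ### The subgroups -/

/-- `Γ k` consists of the `(n; 0, 0)` with `k ∣ n`. -/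
def Γ (k : ℤ) : Subgroup G where
  carrier := {g | k ∣ g.1 ∧ g.2.1 = 1 ∧ g.2.2 = 1}
  mul_mem' := by
    intro x y hx hy
    obtain ⟨n, a, b, rfl⟩ := exists_mk x
    obtain ⟨n', a', b', rfl⟩ := exists_mk y
    obtain ⟨h1, h2, h3⟩ := hx
    obtain ⟨k1, k2, k3⟩ := hy
    change a = 1 at h2
    change b = 1 at h3
    change a' = 1 at k2
    change b' = 1 at k3
    subst h2 h3 k2 k3
    refine ⟨dvd_add h1 k1, ?_, ?_⟩
    · change (1 : Circle) * 1 = 1
      simp
    · change (1 : Circle) * 1 * 1 ^ n = 1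
      simp
  one_mem' := ⟨dvd_zero _, rfl, rfl⟩
  inv_mem' := by
    intro x hx
    obtain ⟨n, a, b, rfl⟩ := exists_mk x
    obtain ⟨h1, h2, h3⟩ := hx
    change a = 1 at h2
    change b = 1 at h3
    subst h2 h3
    refine ⟨(dvd_neg).2 h1, ?_, ?_⟩
    · change (1 : Circle)⁻¹ = 1
      simp
    · change (1 : Circle)⁻¹ * 1 ^ n = 1
      simp

/-- The coset of `mk n a b`. -/
def cs (k : ℤ) (n : ℤ) (a b : Circle) : G ⧸ Γ k := (mk n a b : G)

lemma exists_cs {k : ℤ} (x : G ⧸ Γ k) : ∃ n a b, x = cs k n a b := by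
  obtain ⟨g, rfl⟩ := QuotientGroup.mk_surjective x
  obtain ⟨n, a, b, rfl⟩ := exists_mk g
  exact ⟨n, a, b, rfl⟩

lemma cs_eq {k n m : ℤ} {a b c d : Circle} :
    cs k n a b = cs k m c d ↔ k ∣ m - n ∧ a = c ∧ b = d := by
  unfold cs
  rw [QuotientGroup.eq, mk_inv, mk_mul_mk]
  change (k ∣ -n + m ∧ a⁻¹ * c = 1 ∧ b⁻¹ * a ^ n * d * c ^ (-n) = 1) ↔ _
  rw [inv_mul_eq_one, neg_add_eq_sub]
  constructor
  · rintro ⟨h1, rfl, h3⟩
    refine ⟨h1, rfl, ?_⟩
    have : b⁻¹ * a ^ n * d * a ^ (-n) = b⁻¹ * d := by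
      rw [zpow_neg, mul_assoc b⁻¹, mul_comm (a ^ n) d, ← mul_assoc, mul_inv_cancel_right]
    rw [this, inv_mul_eq_one] at h3
    exact h3
  · rintro ⟨h1, rfl, rfl⟩
    refine ⟨h1, rfl, ?_⟩
    rw [zpow_neg, mul_assoc b⁻¹, mul_comm (a ^ n) b]
    simp

lemma smul_cs (k : ℤ) (n m : ℤ) (a b c d : Circle) :
    mk n a b • cs k m c d = cs k (n + m) (a * c) (b * d * c ^ n) := rfl

lemma continuous_mk (n : ℤ) : Continuous fun q : Circle × Circle => mk n q.1 q.2 :=
  continuous_const.prodMk (continuous_fst.prodMk continuous_snd)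

lemma continuous_cs (k n : ℤ) : Continuous fun q : Circle × Circle => cs k n q.1 q.2 :=
  QuotientGroup.continuous_mk.comp (continuous_mk n)

instance discrete_Γ (k : ℤ) : DiscreteTopology (Γ k) := by
  refine DiscreteTopology.of_continuous_injective (f := fun g : Γ k => (g : G).1)
    (continuous_fst.comp continuous_subtype_val) ?_
  rintro ⟨g, h1, h2, h3⟩ ⟨g', k1, k2, k3⟩ h
  apply Subtype.ext
  exact Prod.ext h (Prod.ext (h2.trans k2.symm) (h3.trans k3.symm))

lemma compact_quot {k : ℤ} (hk : 0 < k) : CompactSpace (G ⧸ Γ k) := by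
  have hfin : (⋃ n ∈ Finset.Ico (0 : ℤ) k, range fun q : Circle × Circle => cs k n q.1 q.2) =
      univ := by
    rw [eq_univ_iff_forall]
    intro x
    obtain ⟨n, a, b, rfl⟩ := exists_cs x
    refine mem_biUnion (show n % k ∈ Finset.Ico 0 k from ?_) ⟨(a, b), ?_⟩
    · exact Finset.mem_Ico.2 ⟨Int.emod_nonneg _ hk.ne', Int.emod_lt_of_pos _ hk⟩
    · change cs k (n % k) a b = cs k n a b
      rw [cs_eq]
      refine ⟨?_, rfl, rfl⟩
      have := Int.emod_add_mul_ediv n k
      exact ⟨n / k, by linarith⟩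
  rw [← isCompact_univ_iff, ← hfin]
  exact (Finset.finite_toSet _).isCompact_biUnion fun n _ =>
    isCompact_range (continuous_cs k n)

/-! ### The rotation `α` and closed subgroups of the circle -/

/-- The rotation number. -/
def α : Circle := Circle.exp 1

lemma α_zpow_ne_one {k : ℤ} (hk : k ≠ 0) : α ^ k ≠ 1 := by
  intro h
  unfold α at h
  rw [← Circle.exp_intCast_mul, mul_one, Circle.exp_eq_one] at h
  obtain ⟨n, hn⟩ := h
  have hn0 : n ≠ 0 := by
    rintro rfl
    simp at hn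
    exact hk hn
  have hpi : Real.pi = ((k / (2 * n) : ℚ) : ℝ) := by
    push_cast
    field_simp
    linarith
  exact irrational_pi ⟨_, hpi.symm⟩

lemma closed_subgroup (H : Subgroup Circle) (hH : IsClosed (H : Set Circle)) :
    H = ⊤ ∨ ∃ m : ℕ, 0 < m ∧ ∀ h ∈ H, h ^ m = 1 := by
  let S : AddSubgroup ℝ :=
    { carrier := {t | Circle.exp t ∈ H}
      add_mem' := fun {x y} hx hy => by
        change Circle.exp (x + y) ∈ H
        rw [Circle.exp_add]
        exact H.mul_mem hx hy
      zero_mem' := by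
        change Circle.exp 0 ∈ H
        rw [Circle.exp_zero]
        exact H.one_mem
      neg_mem' := fun {x} hx => by
        change Circle.exp (-x) ∈ H
        rw [Circle.exp_neg]
        exact H.inv_mem hx }
  have hmem : ∀ t, t ∈ S ↔ Circle.exp t ∈ H := fun t => Iff.rfl
  have hSc : IsClosed (S : Set ℝ) := hH.preimage Circle.exp.continuous
  rcases S.dense_or_cyclic with hd | ⟨a, ha⟩
  · left
    have : (S : Set ℝ) = univ := by rw [← hSc.closure_eq, hd.closure_eq]
    rw [eq_top_iff]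
    intro h _
    obtain ⟨t, rfl⟩ := Circle.exp_surjective h
    exact (hmem t).1 (by rw [← SetLike.mem_coe, this]; exact mem_univ t)
  · right
    have h2 : 2 * Real.pi ∈ S := by
      rw [hmem, Circle.exp_two_pi]
      exact H.one_mem
    rw [ha, AddSubgroup.mem_closure_singleton] at h2
    obtain ⟨j, hj⟩ := h2
    have hj0 : j ≠ 0 := by
      rintro rfl
      simp at hj
    refine ⟨j.natAbs, Int.natAbs_pos.2 hj0, fun h hh => ?_⟩
    obtain ⟨t, rfl⟩ := Circle.exp_surjective h
    have ht : t ∈ S := (hmem t).2 hh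
    rw [ha, AddSubgroup.mem_closure_singleton] at ht
    obtain ⟨i, rfl⟩ := ht
    have h3 : Circle.exp (i • a) ^ j = 1 := by
      rw [← Circle.exp_zsmul, smul_comm, hj]
      rw [zsmul_eq_mul]
      exact Circle.exp_int_mul_two_pi i
    rcases Int.natAbs_eq j with h | h
    · rw [h, zpow_natCast] at h3
      exact h3
    · rw [h, zpow_neg, zpow_natCast, inv_eq_one] at h3
      exact h3

/-- The powers of `α²` are dense. -/
lemma dense_α (C : Set Circle) (hC : IsClosed C) {a₀ : Circle}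
    (h : ∀ i : ℤ, α ^ (2 * i) * a₀ ∈ C) : C = univ := by
  set H : Subgroup Circle := (Subgroup.zpowers (α ^ (2 : ℤ))).topologicalClosure with hHdef
  have hHc : IsClosed (H : Set Circle) := Subgroup.isClosed_topologicalClosure _
  have hα : α ^ (2 : ℤ) ∈ H :=
    Subgroup.le_topologicalClosure _ (Subgroup.mem_zpowers _)
  have hH : H = ⊤ := by
    rcases closed_subgroup H hHc with h1 | ⟨m, hm, h1⟩
    · exact h1
    · exfalso
      have h2 := h1 _ hα
      rw [← zpow_natCast, ← zpow_mul] at h2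
      exact α_zpow_ne_one (by positivity) h2
  rw [eq_univ_iff_forall]
  intro c
  have h1 : c * a₀⁻¹ ∈ closure ((Subgroup.zpowers (α ^ (2 : ℤ)) : Subgroup Circle) : Set Circle) := by
    have : c * a₀⁻¹ ∈ (H : Set Circle) := by rw [hH]; trivial
    rwa [hHdef, Subgroup.topologicalClosure_coe] at this
  have hcont : Continuous fun z : Circle => z * a₀ := continuous_mul_const a₀
  have h2 : MapsTo (fun z : Circle => z * a₀)
      ((Subgroup.zpowers (α ^ (2 : ℤ)) : Subgroup Circle) : Set Circle) C := by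
    rintro z ⟨i, rfl⟩
    have h5 := h i
    rwa [zpow_mul] at h5
  have h3 := h2.closure hcont h1
  rw [hC.closure_eq] at h3
  simpa using h3

/-- Powers of `α²` come arbitrarily close to `1` without being `1`. -/
lemma exists_near {δ : ℝ} (hδ : 0 < δ) : ∃ i : ℤ, i ≠ 0 ∧ dist (α ^ (2 * i)) 1 < δ := by
  by_contra hcon
  push Not at hcon
  have h := dense_α {z | z = 1 ∨ δ ≤ dist z 1}
    ((isClosed_eq continuous_id continuous_const).union
      (isClosed_le continuous_const (continuous_id.dist continuous_const))) (a₀ := 1)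
    (by
      intro i
      rw [mul_one]
      by_cases hi : i = 0
      · left
        rw [hi]; simp
      · right
        exact hcon i hi)
  -- points close to one
  have hcont : Tendsto (fun t : ℝ => dist (Circle.exp t) 1) (𝓝 0) (𝓝 0) := by
    have : Continuous fun t : ℝ => dist (Circle.exp t) 1 :=
      Circle.exp.continuous.dist continuous_const
    have h2 := this.tendsto 0
    simpa using h2
  have hev : ∀ᶠ t : ℝ in 𝓝[>] 0, dist (Circle.exp t) 1 < δ :=
    (hcont.eventually (eventually_lt_nhds hδ)).filter_mono nhdsWithin_le_nhds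
  have hev2 : ∀ᶠ t : ℝ in 𝓝[>] 0, t < 1 :=
    ((eventually_lt_nhds one_pos)).filter_mono nhdsWithin_le_nhds
  obtain ⟨t, ht1, ht2, ht3⟩ := (hev.and (hev2.and self_mem_nhdsWithin)).exists
  have ht3' : (0 : ℝ) < t := ht3
  have h4 : Circle.exp t ∈ {z | z = 1 ∨ δ ≤ dist z 1} := by rw [h]; trivial
  rcases h4 with h4 | h4
  · rw [Circle.exp_eq_one] at h4
    obtain ⟨n, hn⟩ := h4
    have hpi := Real.pi_gt_three
    have hn0 : 0 < n := by
      by_contra hneg
      have : (n : ℝ) ≤ 0 := by exact_mod_cast not_lt.1 hneg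
      nlinarith
    have : (1 : ℝ) ≤ n := by exact_mod_cast hn0
    nlinarith
  · linarith

/-! ### Minimality -/

/-- The translation element. -/
def τ : G := mk 1 α 1

/-- The central element `(0; 0, c)`. -/
def ζ : Circle →* G where
  toFun c := mk 0 1 c
  map_one' := rfl
  map_mul' c d := by simp [mk_mul_mk]

lemma ζ_smul_cs (k n : ℤ) (a b c : Circle) : ζ c • cs k n a b = cs k n a (c * b) := by
  change mk 0 1 c • cs k n a b = _
  rw [smul_cs]
  simp

lemma τ_zpow (j : ℤ) : ∃ e : Circle, τ ^ j = mk j (α ^ j) e := by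
  obtain ⟨n, a, b, h⟩ := exists_mk (τ ^ j)
  refine ⟨b, ?_⟩
  have h1 : proj (τ ^ j) = (proj τ) ^ j := map_zpow proj τ j
  rw [h] at h1
  have h2 : (proj τ) ^ j = (Multiplicative.ofAdd j, α ^ j) := by
    change ((Multiplicative.ofAdd (1 : ℤ), α) : Multiplicative ℤ × Circle) ^ j = _
    refine Prod.ext ?_ ?_
    · change (Multiplicative.ofAdd (1 : ℤ)) ^ j = Multiplicative.ofAdd j
      rw [← ofAdd_zsmul]
      simp
    · rfl
  rw [h2] at h1
  have h3 : n = j := congrArg (fun q : Multiplicative ℤ × Circle => Multiplicative.toAdd q.1) h1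
  have h4 : a = α ^ j := congrArg Prod.snd h1
  rw [h, h3, h4]

lemma exists_min {Y : Type*} [TopologicalSpace Y] [CompactSpace Y] {C : Set Y} (hC : IsClosed C)
    (hCne : C.Nonempty) (F : Y → Y) (hF : MapsTo F C C) :
    ∃ Z : Set Y, Z ⊆ C ∧ IsClosed Z ∧ Z.Nonempty ∧ MapsTo F Z Z ∧
      ∀ Z' ⊆ Z, IsClosed Z' → Z'.Nonempty → MapsTo F Z' Z' → Z' = Z := by
  obtain ⟨m, hmC, hm⟩ := zorn_superset_nonempty
    {Z : Set Y | IsClosed Z ∧ Z.Nonempty ∧ MapsTo F Z Z} (by
      intro c hc hchain hne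
      refine ⟨⋂₀ c, ⟨isClosed_sInter fun s hs => (hc hs).1, ?_, ?_⟩, fun s hs =>
        sInter_subset_of_mem hs⟩
      · have hne' : Nonempty c := hne.to_subtype
        have hdir : DirectedOn (· ⊇ ·) c := by
          intro a ha b hb
          rcases hchain.total ha hb with h | h
          · exact ⟨a, ha, subset_rfl, h⟩
          · exact ⟨b, hb, h, subset_rfl⟩
        exact IsCompact.nonempty_sInter_of_directed_nonempty_isCompact_isClosed
          (S := c) hdir (fun s hs => (hc hs).2.1)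
          (fun s hs => (hc hs).1.isCompact) (fun s hs => (hc hs).1)
      · intro x hx
        refine mem_sInter.2 fun s hs => (hc hs).2.2 (mem_sInter.1 hx s hs)) C ⟨hC, hCne, hF⟩
  refine ⟨m, hmC, hm.prop.1, hm.prop.2.1, hm.prop.2.2, fun Z' hZ' h1 h2 h3 => ?_⟩
  exact Subset.antisymm hZ' (hm.2 ⟨h1, h2, h3⟩ hZ')

instance t2_quot (k : ℤ) : T2Space (G ⧸ Γ k) := by
  have : IsClosed ((Γ k : Subgroup G) : Set G) := by
    have : DiscreteTopology (Γ k) := discrete_Γ k
    exact Subgroup.isClosed_of_discrete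
  infer_instance

lemma metrizable_quot {k : ℤ} (hk : 0 < k) : TopologicalSpace.MetrizableSpace (G ⧸ Γ k) := by
  have := compact_quot hk
  have : SecondCountableTopology (G ⧸ Γ k) :=
    (QuotientGroup.isOpenQuotientMap_mk (N := Γ k)).isQuotientMap.secondCountableTopology
      (QuotientGroup.isOpenMap_coe)
  infer_instance

open scoped Pointwise in
/-- A nonempty closed subset of `G/Γ₁` that is minimal for `τ` is everything. -/
lemma min_eq_univ (M : Set (G ⧸ Γ 2)) (hMc : IsClosed M) (hMne : M.Nonempty)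
    (hMinv : MapsTo (fun x => τ • x) M M)
    (hMmin : ∀ Z' ⊆ M, IsClosed Z' → Z'.Nonempty → MapsTo (fun x => τ • x) Z' Z' → Z' = M) :
    M = univ := by
  have hcpt : CompactSpace (G ⧸ Γ 2) := compact_quot (by norm_num)
  -- two-sided invariance
  have hτM : τ • M = M := by
    refine hMmin (τ • M) ?_ ?_ ?_ ?_
    · rintro x ⟨y, hy, rfl⟩
      exact hMinv hy
    · exact hMc.smul τ
    · exact hMne.smul_set
    · rintro x ⟨y, hy, rfl⟩
      exact ⟨τ • y, hMinv hy, rfl⟩
  have hτj : ∀ j : ℤ, ∀ x ∈ M, τ ^ j • x ∈ M := by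
    intro j x hx
    have h1 : τ ∈ MulAction.stabilizer G M := hτM
    have h2 : τ ^ j ∈ MulAction.stabilizer G M := (MulAction.stabilizer G M).zpow_mem h1 j
    have h3 : τ ^ j • M = M := h2
    rw [← h3]
    exact smul_mem_smul_set hx
  -- the subgroup `H`
  set H : Subgroup Circle := (MulAction.stabilizer G M).comap ζ with hH
  have hcomm : ∀ (c : Circle) (x : G ⧸ Γ 2), τ • ζ c • x = ζ c • τ • x := by
    intro c x
    rw [← mul_smul, ← mul_smul]
    congr 1
    exact (central c τ).symm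
  have hHmem : ∀ c : Circle, ∀ x ∈ M, ζ c • x ∈ M → c ∈ H := by
    intro c x hx hcx
    have h1 : IsClosed (ζ c • M) := hMc.smul _
    have h2 : MapsTo (fun x => τ • x) (ζ c • M) (ζ c • M) := by
      rintro _ ⟨y, hy, rfl⟩
      exact ⟨τ • y, hMinv hy, (hcomm c y).symm⟩
    have h3 : (ζ c • M) ∩ M = M :=
      hMmin _ inter_subset_right (h1.inter hMc) ⟨ζ c • x, smul_mem_smul_set hx, hcx⟩
        fun y hy => ⟨h2 hy.1, hMinv hy.2⟩
    have h4 : M ⊆ ζ c • M := inter_eq_right.1 h3
    -- hence `ζ c⁻¹ • M ⊆ M`, and equality by minimality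
    have h5 : (ζ c)⁻¹ • M ⊆ M := by
      rw [smul_set_subset_iff_subset_inv_smul_set, inv_inv]
      exact h4
    have h6 : (ζ c)⁻¹ • M = M := by
      refine hMmin _ h5 (hMc.smul _) hMne.smul_set ?_
      rintro _ ⟨y, hy, rfl⟩
      refine ⟨τ • y, hMinv hy, ?_⟩
      have := hcomm c⁻¹ y
      rw [map_inv] at this
      exact this.symm
    change ζ c • M = M
    conv_lhs => rw [← h6]
    rw [smul_inv_smul]
  obtain ⟨x₀, hx₀⟩ := hMne
  have hHc : IsClosed (H : Set Circle) := by
    have h1 : (H : Set Circle) = (fun c => ζ c • x₀) ⁻¹' M := by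
      ext c
      constructor
      · intro hc
        have h2 : ζ c • M = M := hc
        change ζ c • x₀ ∈ M
        rw [← h2]
        exact smul_mem_smul_set hx₀
      · exact fun hc => hHmem c x₀ hx₀ hc
    rw [h1]
    refine hMc.preimage ?_
    have h2 : Continuous fun c : Circle => (ζ c : G) :=
      continuous_const.prodMk (continuous_const.prodMk continuous_id)
    exact h2.smul continuous_const
  -- the projection to the base
  have hbase : ∀ n : ℤ, ∀ a : Circle, ∃ b, cs 2 n a b ∈ M := by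
    have hP : ∀ n : ℤ, IsClosed {a : Circle | ∃ b, cs 2 n a b ∈ M} := by
      intro n
      have h1 : IsClosed {q : Circle × Circle | cs 2 n q.1 q.2 ∈ M} :=
        hMc.preimage (continuous_cs 2 n)
      have h2 : {a : Circle | ∃ b, cs 2 n a b ∈ M} =
          Prod.fst '' {q : Circle × Circle | cs 2 n q.1 q.2 ∈ M} := by
        ext a
        constructor
        · rintro ⟨b, hb⟩
          exact ⟨(a, b), hb, rfl⟩
        · rintro ⟨⟨a', b⟩, hb, rfl⟩
          exact ⟨b, hb⟩
      rw [h2]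
      exact isClosedMap_fst_of_compactSpace _ h1
    obtain ⟨n₀, a₀, b₀, rfl⟩ := exists_cs x₀
    have hn₀ : {a : Circle | ∃ b, cs 2 n₀ a b ∈ M} = univ := by
      refine dense_α _ (hP n₀) (a₀ := a₀) fun i => ?_
      obtain ⟨e, he⟩ := τ_zpow (2 * i)
      have h1 := hτj (2 * i) _ hx₀
      rw [he, smul_cs] at h1
      refine ⟨e * b₀ * a₀ ^ (2 * i), ?_⟩
      have h2 : cs 2 n₀ (α ^ (2 * i) * a₀) (e * b₀ * a₀ ^ (2 * i)) =
          cs 2 (2 * i + n₀) (α ^ (2 * i) * a₀) (e * b₀ * a₀ ^ (2 * i)) := by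
        rw [cs_eq]
        exact ⟨⟨i, by ring⟩, rfl, rfl⟩
      rw [h2]
      exact h1
    intro n a
    rcases Int.even_or_odd (n - n₀) with ⟨l, hl⟩ | ⟨l, hl⟩
    · have h1 : a ∈ {a : Circle | ∃ b, cs 2 n₀ a b ∈ M} := by rw [hn₀]; trivial
      obtain ⟨b, hb⟩ := h1
      refine ⟨b, ?_⟩
      have : cs 2 n a b = cs 2 n₀ a b := by
        rw [cs_eq]
        exact ⟨⟨-l, by linarith⟩, rfl, rfl⟩
      rw [this]
      exact hb
    · have h1 : α⁻¹ * a ∈ {a : Circle | ∃ b, cs 2 n₀ a b ∈ M} := by rw [hn₀]; trivial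
      obtain ⟨b, hb⟩ := h1
      have h2 := hMinv hb
      change mk 1 α 1 • cs 2 n₀ (α⁻¹ * a) b ∈ M at h2
      rw [smul_cs] at h2
      refine ⟨1 * b * (α⁻¹ * a) ^ (1 : ℤ), ?_⟩
      have : cs 2 n a (1 * b * (α⁻¹ * a) ^ (1 : ℤ)) =
          cs 2 (1 + n₀) (α * (α⁻¹ * a)) (1 * b * (α⁻¹ * a) ^ (1 : ℤ)) := by
        rw [cs_eq]
        exact ⟨⟨-l, by linarith⟩, by rw [mul_inv_cancel_left], rfl⟩
      rw [this]
      exact h2
  rcases closed_subgroup H hHc with htop | ⟨m, hm, htor⟩
  · -- `M` is invariant under the central circle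
    rw [eq_univ_iff_forall]
    intro x
    obtain ⟨n, a, b, rfl⟩ := exists_cs x
    obtain ⟨b', hb'⟩ := hbase n a
    have h1 : b * b'⁻¹ ∈ H := by rw [htop]; trivial
    have h2 : ζ (b * b'⁻¹) • M = M := h1
    rw [← h2]
    refine ⟨_, hb', ?_⟩
    change ζ (b * b'⁻¹) • cs 2 n a b' = cs 2 n a b
    rw [ζ_smul_cs, inv_mul_cancel_right]
  · exfalso
    -- the fibre coordinate to the power `m` is a function of the base coordinate
    set Q : Set (Circle × Circle) := {q | cs 2 0 q.1 q.2 ∈ M} with hQ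
    have hQc : IsClosed Q := hMc.preimage (continuous_cs 2 0)
    have hfib : ∀ a b b', (a, b) ∈ Q → (a, b') ∈ Q → b ^ m = b' ^ m := by
      intro a b b' hb hb'
      have h1 : b' * b⁻¹ ∈ H := by
        refine hHmem _ (cs 2 0 a b) hb ?_
        rw [ζ_smul_cs, inv_mul_cancel_right]
        exact hb'
      have h2 := htor _ h1
      rw [mul_pow, inv_pow, mul_inv_eq_one] at h2
      exact h2.symm
    obtain ⟨δ, hδ, hunif⟩ : ∃ δ : ℝ, 0 < δ ∧ ∀ a b a' b', (a, b) ∈ Q → (a', b') ∈ Q →
        dist a a' < δ → dist (b ^ m) (b' ^ m) < 1 := by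
      set W : Set ((Circle × Circle) × (Circle × Circle)) :=
        (Q ×ˢ Q) ∩ {w | 1 ≤ dist (w.1.2 ^ m) (w.2.2 ^ m)} with hW
      have hWc : IsCompact W := by
        refine ((hQc.prod hQc).inter (isClosed_le continuous_const ?_)).isCompact
        exact ((continuous_snd.comp continuous_fst).pow m).dist
          ((continuous_snd.comp continuous_snd).pow m)
      have hcont : Continuous fun w : (Circle × Circle) × (Circle × Circle) =>
          dist w.1.1 w.2.1 :=
        (continuous_fst.comp continuous_fst).dist (continuous_fst.comp continuous_snd)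
      rcases W.eq_empty_or_nonempty with h0 | h0
      · refine ⟨1, one_pos, fun a b a' b' h1 h2 _ => ?_⟩
        by_contra hcon
        have : ((a, b), (a', b')) ∈ W := ⟨⟨h1, h2⟩, not_lt.1 hcon⟩
        rw [h0] at this
        exact this
      · obtain ⟨w, hw, hmin⟩ := hWc.exists_isMinOn h0 hcont.continuousOn
        have hpos : 0 < dist w.1.1 w.2.1 := by
          rw [dist_pos]
          intro heq
          have h1 : (w.1.1, w.1.2) ∈ Q := hw.1.1
          have h2 : (w.1.1, w.2.2) ∈ Q := by rw [heq]; exact hw.1.2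
          have h3 := hfib _ _ _ h1 h2
          have h4 : 1 ≤ dist (w.1.2 ^ m) (w.2.2 ^ m) := hw.2
          rw [h3, dist_self] at h4
          linarith
        refine ⟨dist w.1.1 w.2.1, hpos, fun a b a' b' h1 h2 h3 => ?_⟩
        by_contra hcon
        have hmem : ((a, b), (a', b')) ∈ W := ⟨⟨h1, h2⟩, not_lt.1 hcon⟩
        have : dist w.1.1 w.2.1 ≤ dist a a' := hmin hmem
        linarith
    obtain ⟨i, hi0, hi⟩ := exists_near hδ
    obtain ⟨e, he⟩ := τ_zpow (2 * i)
    have hstep : ∀ a b, (a, b) ∈ Q → (α ^ (2 * i) * a, e * b * a ^ (2 * i)) ∈ Q := by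
      intro a b hab
      have h1 := hτj (2 * i) _ hab
      rw [he, smul_cs] at h1
      have h2 : cs 2 0 (α ^ (2 * i) * a) (e * b * a ^ (2 * i)) =
          cs 2 (2 * i + 0) (α ^ (2 * i) * a) (e * b * a ^ (2 * i)) := by
        rw [cs_eq]
        exact ⟨⟨i, by ring⟩, rfl, rfl⟩
      change cs 2 0 (α ^ (2 * i) * a) (e * b * a ^ (2 * i)) ∈ M
      rw [h2]
      exact h1
    -- choose `a` with `(e * a^(2i))^m = -1`
    obtain ⟨a, ha⟩ : ∃ a : Circle, (e * a ^ (2 * i)) ^ m = -1 := by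
      obtain ⟨t, ht⟩ := Circle.exp_surjective (-(e ^ m)⁻¹)
      have hk : ((2 * i * m : ℤ) : ℝ) ≠ 0 := by
        have : (2 * i * m : ℤ) ≠ 0 := by positivity
        exact_mod_cast this
      refine ⟨Circle.exp (t / ((2 * i * m : ℤ) : ℝ)), ?_⟩
      rw [mul_pow, ← zpow_natCast (_ ^ (2 * i)), ← zpow_mul, ← Circle.exp_intCast_mul,
        mul_div_cancel₀ _ hk, ht]
      rw [mul_neg, mul_inv_cancel]
    obtain ⟨b, hb⟩ := hbase 0 a
    have hb' : (a, b) ∈ Q := hb
    have h1 := hunif _ _ _ _ hb' (hstep a b hb') (by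
      have : dist a (α ^ (2 * i) * a) = dist (α ^ (2 * i)) 1 := by
        change dist (a : ℂ) ((α ^ (2 * i) * a : Circle) : ℂ) = dist ((α ^ (2 * i) : Circle) : ℂ) 1
        rw [dist_comm, dist_eq_norm, dist_eq_norm, Circle.coe_mul, ← sub_one_mul, norm_mul,
          Circle.norm_coe, mul_one]
      rw [this]
      exact hi)
    have h2 : (e * b * a ^ (2 * i)) ^ m = -(b ^ m) := by
      have : e * b * a ^ (2 * i) = b * (e * a ^ (2 * i)) := by
        rw [mul_comm e b, mul_assoc]
      rw [this, mul_pow, ha, mul_neg, mul_one]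
    rw [h2] at h1
    change dist ((b ^ m : Circle) : ℂ) ((-(b ^ m) : Circle) : ℂ) < 1 at h1
    rw [dist_eq_norm, Circle.coe_neg, sub_neg_eq_add, ← two_mul, norm_mul, Circle.norm_coe] at h1
    norm_num at h1

lemma dense_orbit_two (x : G ⧸ Γ 2) : Dense (range fun n : ℤ => τ ^ n • x) := by
  have hcpt : CompactSpace (G ⧸ Γ 2) := compact_quot (by norm_num)
  have hcont : Continuous fun y : G ⧸ Γ 2 => τ • y := continuous_const_smul τ
  obtain ⟨M, hMC, hMc, hMne, hMinv, hMmin⟩ := exists_min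
    (C := closure (range fun n : ℤ => τ ^ n • x)) isClosed_closure
    (range_nonempty _).closure (fun y => τ • y) (by
      refine MapsTo.closure ?_ hcont
      rintro _ ⟨n, rfl⟩
      refine ⟨n + 1, ?_⟩
      change τ ^ (n + 1) • x = τ • τ ^ n • x
      rw [zpow_add_one, ← mul_smul, (Commute.self_zpow τ n).eq])
  have := min_eq_univ M hMc hMne hMinv hMmin
  rw [this] at hMC
  exact fun y => hMC (mem_univ y)

lemma Γ_le : Γ 2 ≤ Γ 1 := fun _ hg => ⟨one_dvd _, hg.2⟩

/-- The natural projection `G/Γ₁ → G/Γ₂`. -/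
def q : G ⧸ Γ 2 → G ⧸ Γ 1 := Subgroup.quotientMapOfLE Γ_le

lemma q_mk (g : G) : q (g : G ⧸ Γ 2) = (g : G ⧸ Γ 1) := rfl

lemma q_smul (g : G) (x : G ⧸ Γ 2) : q (g • x) = g • q x := by
  obtain ⟨h, rfl⟩ := QuotientGroup.mk_surjective x
  rfl

lemma q_surj : Function.Surjective q := by
  intro x
  obtain ⟨h, rfl⟩ := QuotientGroup.mk_surjective x
  exact ⟨(h : G ⧸ Γ 2), rfl⟩

lemma q_cont : Continuous q := by
  have h : Continuous (q ∘ (QuotientGroup.mk : G → G ⧸ Γ 2)) :=
    (QuotientGroup.continuous_mk : Continuous (QuotientGroup.mk : G → G ⧸ Γ 1))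
  exact (QuotientGroup.isQuotientMap_mk (N := Γ 2)).continuous_iff.2 h

lemma q_open : IsOpenMap q := by
  intro U hU
  have h1 : q '' U = (QuotientGroup.mk : G → G ⧸ Γ 1) '' ((QuotientGroup.mk : G → G ⧸ Γ 2) ⁻¹' U) := by
    ext y
    constructor
    · rintro ⟨x, hx, rfl⟩
      obtain ⟨h, rfl⟩ := QuotientGroup.mk_surjective x
      exact ⟨h, hx, rfl⟩
    · rintro ⟨h, hx, rfl⟩
      exact ⟨(h : G ⧸ Γ 2), hx, rfl⟩
  rw [h1]
  exact QuotientGroup.isOpenMap_coe _ (hU.preimage QuotientGroup.continuous_mk)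

lemma dense_orbit_one (x : G ⧸ Γ 1) : Dense (range fun n : ℤ => τ ^ n • x) := by
  obtain ⟨y, rfl⟩ := q_surj x
  have h2 : DenseRange (q ∘ fun n : ℤ => τ ^ n • y) :=
    q_surj.denseRange.comp (dense_orbit_two y) q_cont
  refine h2.mono ?_
  rintro _ ⟨n, rfl⟩
  exact ⟨n, (q_smul _ _).symm⟩

/-! ### The open sets -/

/-- The coordinates on `G/Γ₂`. -/
def θ : G ⧸ Γ 1 → Circle × Circle :=
  Quotient.lift (fun g : G => (g.2.1, g.2.2)) (by
    intro g h hgh
    obtain ⟨n, a, b, rfl⟩ := exists_mk g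
    obtain ⟨m, c, d, rfl⟩ := exists_mk h
    have h1 : cs 1 n a b = cs 1 m c d := Quotient.sound hgh
    rw [cs_eq] at h1
    exact Prod.ext h1.2.1 h1.2.2)

lemma θ_cs (n : ℤ) (a b : Circle) : θ (cs 1 n a b) = (a, b) := rfl

lemma θ_cont : Continuous θ := by
  have h : Continuous (θ ∘ (QuotientGroup.mk : G → G ⧸ Γ 1)) :=
    (continuous_fst.comp continuous_snd).prodMk (continuous_snd.comp continuous_snd)
  exact (QuotientGroup.isQuotientMap_mk (N := Γ 1)).continuous_iff.2 h

/-- The open set in `G/Γ₂`. -/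
def U₂ : Set (G ⧸ Γ 1) := {x | dist (θ x).1 1 < 1 / 2 ∧ dist (θ x).2 1 < 1 / 2}

lemma isOpen_U₂ : IsOpen U₂ :=
  (isOpen_lt ((continuous_fst.comp θ_cont).dist continuous_const) continuous_const).inter
    (isOpen_lt ((continuous_snd.comp θ_cont).dist continuous_const) continuous_const)

lemma closure_U₂ : closure U₂ ⊆ {x | dist (θ x).1 1 ≤ 1 / 2 ∧ dist (θ x).2 1 ≤ 1 / 2} := by
  refine closure_minimal (fun x hx => ⟨hx.1.le, hx.2.le⟩) ?_
  exact (isClosed_le ((continuous_fst.comp θ_cont).dist continuous_const) continuous_const).inter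
    (isClosed_le ((continuous_snd.comp θ_cont).dist continuous_const) continuous_const)

/-- No small subgroups. -/
lemma eq_one_of_pow_near (c : Circle) (h : ∀ k : ℕ, dist (c ^ k) 1 ≤ 1 / 2) : c = 1 := by
  have hstep : ∀ z : Circle, dist z 1 ≤ 1 / 2 → (3 / 2) * dist z 1 ≤ dist (z ^ 2) 1 := by
    intro z hz
    change (3 / 2) * dist (z : ℂ) 1 ≤ dist ((z ^ 2 : Circle) : ℂ) 1
    change dist (z : ℂ) 1 ≤ 1 / 2 at hz
    rw [dist_eq_norm] at hz ⊢
    rw [dist_eq_norm, Circle.coe_pow]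
    have h1 : (z : ℂ) ^ 2 - 1 = ((z : ℂ) + 1) * ((z : ℂ) - 1) := by ring
    rw [h1, norm_mul]
    have h2 : (3 / 2 : ℝ) ≤ ‖(z : ℂ) + 1‖ := by
      have h3 : ((z : ℂ) + 1) - ((z : ℂ) - 1) = 2 := by ring
      have h4 := norm_sub_le ((z : ℂ) + 1) ((z : ℂ) - 1)
      rw [h3] at h4
      have h5 : ‖(2 : ℂ)‖ = 2 := by norm_num
      linarith
    exact mul_le_mul_of_nonneg_right h2 (norm_nonneg _)
  have hpow : ∀ j : ℕ, (3 / 2 : ℝ) ^ j * dist c 1 ≤ dist (c ^ (2 ^ j)) 1 := by
    intro j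
    induction j with
    | zero => simp
    | succ j ih =>
      calc (3 / 2 : ℝ) ^ (j + 1) * dist c 1 = (3 / 2) * ((3 / 2 : ℝ) ^ j * dist c 1) := by ring
        _ ≤ (3 / 2) * dist (c ^ (2 ^ j)) 1 := by gcongr
        _ ≤ dist ((c ^ (2 ^ j)) ^ 2) 1 := hstep _ (h _)
        _ = dist (c ^ (2 ^ (j + 1))) 1 := by rw [← pow_mul, pow_succ]
  by_contra hne
  have hpos : 0 < dist c 1 := dist_pos.2 hne
  obtain ⟨j, hj⟩ := pow_unbounded_of_one_lt (1 / dist c 1) (by norm_num : (1 : ℝ) < 3 / 2)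
  rw [div_lt_iff₀ hpos] at hj
  have := hpow j
  have := h (2 ^ j)
  linarith

lemma asym_U₂ : AsymClosure U₂ := by
  intro g hg
  obtain ⟨n, c, d, rfl⟩ := exists_mk g
  -- iterates of `g` preserve the closure
  have hiter : ∀ k : ℕ, ∀ x ∈ closure U₂, (mk n c d) ^ k • x ∈ closure U₂ := by
    intro k
    induction k with
    | zero => intro x hx; simpa using hx
    | succ k ih =>
      intro x hx
      rw [pow_succ', mul_smul, ← hg]
      exact ⟨_, ih x hx, rfl⟩
  have hbase : ∀ a : Circle, dist a 1 < 1 / 2 → cs 1 0 a 1 ∈ closure U₂ := by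
    intro a ha
    refine subset_closure ⟨ha, ?_⟩
    change dist (1 : Circle) 1 < 1 / 2
    rw [dist_self]
    norm_num
  have hone : dist (1 : Circle) 1 < 1 / 2 := by
    rw [dist_self]; norm_num
  -- first coordinate
  have hc : c = 1 := by
    refine eq_one_of_pow_near c fun k => ?_
    have h1 := (closure_U₂ (hiter k _ (hbase 1 hone))).1
    obtain ⟨m, a, b, h⟩ := exists_mk ((mk n c d) ^ k)
    have h2 : proj ((mk n c d) ^ k) = (proj (mk n c d)) ^ k := map_pow proj _ k
    rw [h] at h2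
    have h3 : a = c ^ k := congrArg Prod.snd h2
    rw [h, smul_cs, θ_cs] at h1
    simpa [h3] using h1
  subst hc
  have hpow : ∀ (k : ℕ) (a b : Circle), ∃ m : ℤ,
      (mk n 1 d) ^ k • cs 1 0 a b = cs 1 m a ((d * a ^ n) ^ k * b) := by
    intro k
    induction k with
    | zero => intro a b; exact ⟨0, by simp⟩
    | succ k ih =>
      intro a b
      obtain ⟨m, hm⟩ := ih a b
      refine ⟨n + m, ?_⟩
      rw [pow_succ', mul_smul, hm, smul_cs, one_mul]
      congr 1
      rw [pow_succ']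
      simp only [mul_assoc, mul_comm, mul_left_comm]
  have hkey : ∀ a : Circle, dist a 1 < 1 / 2 → d * a ^ n = 1 := by
    intro a ha
    refine eq_one_of_pow_near _ fun k => ?_
    have h1 := (closure_U₂ (hiter k _ (hbase a ha))).2
    obtain ⟨m, hm⟩ := hpow k a 1
    rw [hm, θ_cs, mul_one] at h1
    exact h1
  have hd : d = 1 := by
    have := hkey 1 hone
    simpa using this
  subst hd
  have hn : n = 0 := by
    by_contra hn
    have hnr : (0 : ℝ) < |(n : ℝ)| := abs_pos.2 (by exact_mod_cast hn)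
    set s : ℝ := 1 / (4 * |(n : ℝ)|) with hs
    have hs0 : 0 < s := by positivity
    have hn1 : (1 : ℝ) ≤ |(n : ℝ)| := by
      have : (1 : ℤ) ≤ |n| := Int.one_le_abs hn
      exact_mod_cast this
    have hs1 : s ≤ 1 / 4 := by
      rw [hs]
      apply one_div_le_one_div_of_le (by norm_num)
      linarith
    have h1 : dist (Circle.exp s) 1 < 1 / 2 := by
      change dist ((Circle.exp s : Circle) : ℂ) 1 < 1 / 2
      rw [dist_eq_norm, Circle.coe_exp]
      have h2 : ‖Complex.exp ((s : ℂ) * Complex.I) - 1‖ ≤ |s| := by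
        rw [mul_comm]
        exact Real.norm_exp_I_mul_ofReal_sub_one_le
      rw [abs_of_pos hs0] at h2
      linarith
    have h2 := hkey _ h1
    rw [one_mul, ← Circle.exp_intCast_mul, Circle.exp_eq_one] at h2
    obtain ⟨j, hj⟩ := h2
    have hns : |(n : ℝ) * s| = 1 / 4 := by
      rw [abs_mul, abs_of_pos hs0, hs]
      field_simp
    have hj0 : j ≠ 0 := by
      rintro rfl
      rw [hj] at hns
      norm_num at hns
    have hj1 : (1 : ℝ) ≤ |(j : ℝ)| := by
      have : (1 : ℤ) ≤ |j| := Int.one_le_abs hj0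
      exact_mod_cast this
    rw [hj, abs_mul, abs_of_pos (by positivity : (0 : ℝ) < 2 * Real.pi)] at hns
    have := Real.pi_gt_three
    nlinarith
  subst hn
  intro x
  exact one_smul G x

/-- The open set in `G/Γ₁`. -/
def U₁ : Set (G ⧸ Γ 2) := q ⁻¹' U₂

lemma closure_U₁ : closure U₁ = q ⁻¹' closure U₂ :=
  (q_open.preimage_closure_eq_closure_preimage q_cont U₂).symm

lemma asym_U₁ : AsymClosure U₁ := by
  intro g hg
  have h1 : (fun x : G ⧸ Γ 1 => g • x) '' closure U₂ = closure U₂ := by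
    have h2 : q '' closure U₁ = closure U₂ := by
      rw [closure_U₁, image_preimage_eq _ q_surj]
    rw [← h2]
    conv_rhs => rw [← hg]
    rw [image_image, image_image]
    refine image_congr fun x _ => ?_
    exact (q_smul g x).symm
  have h3 := asym_U₂ g h1
  -- `g` is trivial
  obtain ⟨n, c, d, rfl⟩ := exists_mk g
  have h4 : ∀ a : Circle, c = 1 ∧ d * a ^ n = 1 := by
    intro a
    have h5 := h3 (cs 1 0 a 1)
    rw [smul_cs, cs_eq] at h5
    obtain ⟨-, h6, h7⟩ := h5
    refine ⟨by simpa using h6, by simpa using h7⟩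
  have hc := (h4 1).1
  have hd : d = 1 := by simpa using (h4 1).2
  have hn : n = 0 := by
    by_contra hn
    have := (h4 α).2
    rw [hd, one_mul] at this
    exact α_zpow_ne_one hn this
  subst hc hd hn
  intro x
  exact one_smul G x

/-! ### The two systems are not isomorphic -/

lemma preconnected_one : PreconnectedSpace (G ⧸ Γ 1) := by
  have h1 : Function.Surjective fun r : ℝ × ℝ =>
      cs 1 0 (Circle.exp r.1) (Circle.exp r.2) := by
    intro x
    obtain ⟨n, a, b, rfl⟩ := exists_cs x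
    obtain ⟨s, rfl⟩ := Circle.exp_surjective a
    obtain ⟨t, rfl⟩ := Circle.exp_surjective b
    refine ⟨(s, t), ?_⟩
    change cs 1 0 (Circle.exp s) (Circle.exp t) = cs 1 n (Circle.exp s) (Circle.exp t)
    rw [cs_eq]
    exact ⟨one_dvd _, rfl, rfl⟩
  have h2 : Continuous fun r : ℝ × ℝ => cs 1 0 (Circle.exp r.1) (Circle.exp r.2) :=
    (continuous_cs 1 0).comp ((Circle.exp.continuous.comp continuous_fst).prodMk
      (Circle.exp.continuous.comp continuous_snd))
  refine ⟨?_⟩
  rw [← h1.range_eq]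
  exact isPreconnected_range h2

/-- The parity on `G/Γ₁`. -/
def parity : G ⧸ Γ 2 → ZMod 2 :=
  Quotient.lift (fun g : G => ((g.1 : ℤ) : ZMod 2)) (by
    intro g h hgh
    obtain ⟨n, a, b, rfl⟩ := exists_mk g
    obtain ⟨m, c, d, rfl⟩ := exists_mk h
    have h1 : cs 2 n a b = cs 2 m c d := Quotient.sound hgh
    rw [cs_eq] at h1
    exact (ZMod.intCast_eq_intCast_iff_dvd_sub _ _ 2).2 (by exact_mod_cast h1.1))

lemma parity_cont : Continuous parity := by
  have h : Continuous (parity ∘ (QuotientGroup.mk : G → G ⧸ Γ 2)) := by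
    have h1 : Continuous fun n : ℤ => ((n : ℤ) : ZMod 2) := continuous_of_discreteTopology
    exact h1.comp continuous_fst
  exact (QuotientGroup.isQuotientMap_mk (N := Γ 2)).continuous_iff.2 h

lemma not_preconnected_two : ¬ PreconnectedSpace (G ⧸ Γ 2) := by
  intro h
  have h1 : parity (cs 2 0 1 1) = parity (cs 2 1 1 1) := h.constant parity_cont
  have h2 : ((0 : ℤ) : ZMod 2) = ((1 : ℤ) : ZMod 2) := h1
  revert h2
  decide

end

/-- **MP_2aa58c, Q1 and Q2 (negative answer).**  There are a nilpotent Lie group `G`, discrete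
cocompact subgroups `Γ₁, Γ₂`, an element `τ` acting minimally on `G/Γ₁` and on `G/Γ₂`, open sets
with asymmetric closure and points with equal return-time sets, while `(G/Γ₁, τ)` and `(G/Γ₂, τ)`
are not isomorphic. -/
theorem result :
    ∃ (G : Type) (_ : Group G) (_ : TopologicalSpace G) (_ : IsTopologicalGroup G)
      (_ : PolishSpace G) (Γ₁ Γ₂ : Subgroup G) (τ₁ τ₂ : G) (U₁ : Set (G ⧸ Γ₁))
      (U₂ : Set (G ⧸ Γ₂)) (x₁ : G ⧸ Γ₁) (x₂ : G ⧸ Γ₂),
      Group.IsNilpotent G ∧ IsLie G ∧ Hyp Γ₁ τ₁ U₁ ∧ Hyp Γ₂ τ₂ U₂ ∧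
      {n : ℤ | τ₁ ^ n • x₁ ∈ U₁} = {n : ℤ | τ₂ ^ n • x₂ ∈ U₂} ∧
      ¬ ∃ φ : (G ⧸ Γ₁) ≃ₜ (G ⧸ Γ₂), ∀ x, φ (τ₁ • x) = τ₂ • φ x := by
  refine ⟨G, inferInstance, inferInstance, inferInstance, inferInstance, Γ 2, Γ 1, τ, τ, U₁, U₂,
    cs 2 0 1 1, cs 1 0 1 1, inferInstance, isLie,
    ⟨discrete_Γ 2, compact_quot (by norm_num), metrizable_quot (by norm_num), dense_orbit_two, isOpen_U₂.preimage q_cont, asym_U₁⟩,
    ⟨discrete_Γ 1, compact_quot (by norm_num), metrizable_quot (by norm_num), dense_orbit_one, isOpen_U₂, asym_U₂⟩, ?_, ?_⟩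
  · ext n
    change q (τ ^ n • cs 2 0 1 1) ∈ U₂ ↔ τ ^ n • cs 1 0 1 1 ∈ U₂
    rw [q_smul]
    rfl
  · rintro ⟨φ, -⟩
    refine not_preconnected_two ?_
    have := preconnected_one
    refine ⟨?_⟩
    rw [← φ.symm.surjective.range_eq]
    exact isPreconnected_range φ.symm.continuous

end Pool.Agent.Results.MP_2aa58c_an.SameCore
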